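import Mathlib

namespace Pool.Agent.RootSep

open Polynomial

/-- `sep P`: the smallest distance between two distinct complex roots of `P`. -/
noncomputable def sep (P : ℤ[X]) : ℝ :=
  sInf {r | ∃ a b : ℂ, a ≠ b ∧ aeval a P = 0 ∧ aeval b P = 0 ∧ r = ‖a - b‖}

/-- The height of `P` is at most `H`. -/
def HeightLE (H : ℕ) (P : ℤ[X]) : Prop := ∀ j, |P.coeff j| ≤ (H : ℤ)

/-- The complex roots of `P` are pairwise distinct. -/
def Distinct (P : ℤ[X]) : Prop := (P.map (Int.castRingHom ℂ)).roots.Nodup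

/-- `L(n, H)` -/
noncomputable def L (n H : ℕ) : ℝ :=
  sInf {s | ∃ P : ℤ[X], P.natDegree = n ∧ HeightLE H P ∧ Distinct P ∧ s = sep P}

/-- `L^*(n, H)`: only irreducible `P` -/
noncomputable def Lirr (n H : ℕ) : ℝ :=
  sInf {s | ∃ P : ℤ[X], P.natDegree = n ∧ HeightLE H P ∧ Distinct P ∧ Irreducible P ∧ s = sep P}

/-- `L_0(n, H)`: only monic `P` -/
noncomputable def L0 (n H : ℕ) : ℝ :=
  sInf {s | ∃ P : ℤ[X], P.natDegree = n ∧ HeightLE H P ∧ Distinct P ∧ P.Monic ∧ s = sep P}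

/-- `L_0^*(n, H)`: only monic irreducible `P` -/
noncomputable def L0irr (n H : ℕ) : ℝ :=
  sInf {s | ∃ P : ℤ[X], P.natDegree = n ∧ HeightLE H P ∧ Distinct P ∧ P.Monic ∧ Irreducible P ∧
    s = sep P}

end Pool.Agent.RootSep
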