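import Mathlib

namespace Pool.Agent.RootSep

/-- the polynomial `(x³ + x² - 1)² (x² - x + 1)` -/
def Bf {R : Type*} [CommRing R] (x : R) : R := x ^ 8 + x ^ 7 - x ^ 5 + x ^ 4 - x ^ 2 - x + 1

lemma Bf_eq {R : Type*} [CommRing R] (x : R) :
    Bf x = (x ^ 3 + x ^ 2 - 1) ^ 2 * (x ^ 2 - x + 1) := by
  unfold Bf
  ring

lemma Bf_lower {α x : ℝ} (hα : α ^ 3 + α ^ 2 - 1 = 0) (h1 : 3 / 4 ≤ α) (hx : 7 / 10 ≤ x) :
    27 / 16 * (x - α) ^ 2 ≤ Bf x := by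
  rw [Bf_eq]
  have h2 : x ^ 3 + x ^ 2 - 1 = (x - α) * (x ^ 2 + x * α + α ^ 2 + x + α) := by
    linear_combination hα
  rw [h2, mul_pow]
  have h3 : (3 : ℝ) / 2 ≤ x ^ 2 + x * α + α ^ 2 + x + α := by
    have : 0 ≤ x * α := mul_nonneg (by linarith) (by linarith)
    nlinarith
  have h4 : (9 : ℝ) / 4 ≤ (x ^ 2 + x * α + α ^ 2 + x + α) ^ 2 := by nlinarith
  have h5 : (3 : ℝ) / 4 ≤ x ^ 2 - x + 1 := by nlinarith [sq_nonneg (x - 1 / 2)]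
  have h6 : (27 : ℝ) / 16 ≤ (x ^ 2 + x * α + α ^ 2 + x + α) ^ 2 * (x ^ 2 - x + 1) := by nlinarith
  have h7 := mul_le_mul_of_nonneg_left h6 (sq_nonneg (x - α))
  calc 27 / 16 * (x - α) ^ 2 = (x - α) ^ 2 * (27 / 16) := by ring
    _ ≤ (x - α) ^ 2 * ((x ^ 2 + x * α + α ^ 2 + x + α) ^ 2 * (x ^ 2 - x + 1)) := h7
    _ = _ := by ring

lemma exists_alpha : ∃ α : ℝ, α ^ 3 + α ^ 2 - 1 = 0 ∧ 3 / 4 ≤ α ∧ α ≤ 151 / 200 := by
  have hc : ContinuousOn (fun x : ℝ => x ^ 3 + x ^ 2 - 1) (Set.Icc (3 / 4) (151 / 200)) := by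
    fun_prop
  obtain ⟨α, hα, h0⟩ := intermediate_value_Icc (by norm_num : (3 / 4 : ℝ) ≤ 151 / 200) hc
    (show (0 : ℝ) ∈ Set.Icc _ _ from ⟨by norm_num, by norm_num⟩)
  exact ⟨α, h0, hα.1, hα.2⟩

theorem real_roots {c : ℝ} (hc : 1 ≤ c) {m : ℕ} (hm : 35 ≤ m) :
    ∃ x y : ℝ, x < y ∧ y - x ≤ 2 * (7 / 8) ^ m ∧ x ^ m = c * Bf x ∧ y ^ m = c * Bf y := by
  obtain ⟨α, hα, h1, h2⟩ := exists_alpha
  set δ : ℝ := (7 / 8) ^ m with hδ
  have hδ0 : 0 < δ := by positivity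
  have hδ1 : δ ≤ 1 / 100 := by
    calc δ ≤ (7 / 8 : ℝ) ^ 35 := pow_le_pow_of_le_one (by norm_num) (by norm_num) hm
      _ ≤ 1 / 100 := by norm_num
  have hpow : ∀ x : ℝ, 0 ≤ x → x ≤ 49 / 64 → x ^ m ≤ δ ^ 2 := by
    intro x hx0 hx1
    calc x ^ m ≤ (49 / 64 : ℝ) ^ m := pow_le_pow_left₀ hx0 hx1 m
      _ = δ ^ 2 := by
        rw [hδ, ← pow_mul, mul_comm m 2, pow_mul]
        norm_num
  have hneg : ∀ x : ℝ, 7 / 10 ≤ x → x ≤ 49 / 64 → (x - α) ^ 2 = δ ^ 2 → x ^ m - c * Bf x < 0 := by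
    intro x hx0 hx1 hx2
    have h3 := hpow x (by linarith) hx1
    have h4 := Bf_lower hα h1 hx0
    rw [hx2] at h4
    have h5 : 0 < δ ^ 2 := by positivity
    have h6 : Bf x ≤ c * Bf x := by nlinarith
    linarith
  have hBα : Bf α = 0 := by
    rw [Bf_eq, hα]
    ring
  have hpos : 0 < α ^ m - c * Bf α := by
    rw [hBα, mul_zero, sub_zero]
    exact pow_pos (by linarith) m
  have hcont : Continuous (fun x : ℝ => x ^ m - c * Bf x) := by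
    unfold Bf
    fun_prop
  have hl := hneg (α - δ) (by linarith) (by linarith) (by ring)
  have hr := hneg (α + δ) (by linarith) (by linarith) (by ring)
  obtain ⟨x, hx, hx0⟩ := intermediate_value_Icc (by linarith : α - δ ≤ α) hcont.continuousOn
    (show (0 : ℝ) ∈ Set.Icc _ _ from ⟨hl.le, hpos.le⟩)
  obtain ⟨y, hy, hy0⟩ := intermediate_value_Icc' (by linarith : α ≤ α + δ) hcont.continuousOn
    (show (0 : ℝ) ∈ Set.Icc _ _ from ⟨hr.le, hpos.le⟩)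
  simp only at hx0 hy0
  have hxα : x < α := lt_of_le_of_ne hx.2 (by rintro rfl; linarith)
  have hyα : α < y := lt_of_le_of_ne hy.1 (by rintro rfl; linarith)
  exact ⟨x, y, hxα.trans hyα, by linarith [hx.1, hy.2], by linarith, by linarith⟩

end Pool.Agent.RootSep
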