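import Mathlib
import Pool.Agent.RootSep.Defs
import Pool.Agent.RootSep.Real

namespace Pool.Agent.RootSep

open Polynomial

/-- `(x³ + x² - 1)² (x² - x + 1)` as a polynomial -/
noncomputable def Bz (R : Type*) [CommRing R] : R[X] := X ^ 8 + X ^ 7 - X ^ 5 + X ^ 4 - X ^ 2 - X + 1

noncomputable def Pc (m : ℕ) (c : ℤ) : ℤ[X] := X ^ m - C c * Bz ℤ

lemma Bz_coeff_big {j : ℕ} (hj : 8 < j) : (Bz ℤ).coeff j = 0 := by
  unfold Bz
  simp only [coeff_add, coeff_sub, coeff_X_pow, coeff_X, coeff_one]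
  rw [if_neg (by omega), if_neg (by omega), if_neg (by omega), if_neg (by omega),
    if_neg (by omega), if_neg (by omega), if_neg (by omega)]
  norm_num

lemma Bz_coeff_abs (j : ℕ) : |(Bz ℤ).coeff j| ≤ 1 := by
  rcases lt_or_ge 8 j with hj | hj
  · rw [Bz_coeff_big hj]
    norm_num
  · unfold Bz
    simp only [coeff_add, coeff_sub, coeff_X_pow, coeff_X, coeff_one]
    interval_cases j <;> norm_num

lemma Bz_coeff_zero : (Bz ℤ).coeff 0 = 1 := by
  unfold Bz
  simp [coeff_X]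

lemma degree_cB {m : ℕ} (hm : 9 ≤ m) (c : ℤ) : (C c * Bz ℤ).degree < (X ^ m : ℤ[X]).degree := by
  rw [degree_X_pow]
  refine (degree_lt_iff_coeff_zero _ _).mpr fun j hj => ?_
  rw [coeff_C_mul, Bz_coeff_big (by omega), mul_zero]

lemma Pc_monic {m : ℕ} (hm : 9 ≤ m) (c : ℤ) : (Pc m c).Monic :=
  (monic_X_pow m).sub_of_left (degree_cB hm c)

lemma Pc_natDegree {m : ℕ} (hm : 9 ≤ m) (c : ℤ) : (Pc m c).natDegree = m := by
  unfold Pc
  rw [natDegree_sub_eq_left_of_natDegree_lt, natDegree_X_pow]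
  rw [natDegree_X_pow]
  by_cases h0 : C c * Bz ℤ = 0
  · rw [h0, natDegree_zero]
    omega
  · have := degree_cB hm c
    rw [degree_X_pow] at this
    exact (natDegree_lt_iff_degree_lt h0).mpr this

lemma Pc_coeff (m : ℕ) (c : ℤ) (j : ℕ) :
    (Pc m c).coeff j = (if j = m then 1 else 0) - c * (Bz ℤ).coeff j := by
  unfold Pc
  rw [coeff_sub, coeff_X_pow, coeff_C_mul]

lemma Pc_height {m : ℕ} (hm : 9 ≤ m) {c : ℕ} (hc : 1 ≤ c) (j : ℕ) :
    |(Pc m c).coeff j| ≤ (c : ℤ) := by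
  rw [Pc_coeff]
  have hc' : (1 : ℤ) ≤ c := by exact_mod_cast hc
  split_ifs with h
  · rw [Bz_coeff_big (by omega), mul_zero, sub_zero]
    simpa using hc'
  · have h1 := Bz_coeff_abs j
    rw [zero_sub, abs_neg, abs_mul, abs_of_nonneg (by linarith : (0 : ℤ) ≤ c)]
    nlinarith

lemma Pc_aeval (m : ℕ) (c : ℤ) (x : ℂ) : aeval x (Pc m c) = x ^ m - (c : ℂ) * Bf x := by
  unfold Pc Bz Bf
  simp

lemma Pc_irreducible {m : ℕ} (hm : 9 ≤ m) : Irreducible (Pc m 2) := by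
  have hmon := Pc_monic hm 2
  have hprime : (Ideal.span {(2 : ℤ)}).IsPrime := by
    rw [Ideal.span_singleton_prime (by norm_num)]
    exact Int.prime_two
  have hdeg : (Pc m 2).degree = m := by
    rw [degree_eq_natDegree hmon.ne_zero, Pc_natDegree hm]
  refine irreducible_of_eisenstein_criterion hprime ?_ ?_ ?_ ?_ hmon.isPrimitive
  · rw [hmon.leadingCoeff, Ideal.mem_span_singleton]
    norm_num
  · intro j hj
    rw [hdeg] at hj
    have hj' : j < m := by exact_mod_cast hj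
    rw [Pc_coeff, if_neg (by omega), zero_sub, Ideal.mem_span_singleton, dvd_neg]
    exact Dvd.intro _ rfl
  · rw [hdeg]
    exact_mod_cast (by omega : 0 < m)
  · rw [Ideal.span_singleton_pow, Ideal.mem_span_singleton, Pc_coeff, if_neg (by omega),
      Bz_coeff_zero]
    norm_num

lemma distinct_of_irreducible {P : ℤ[X]} (hm : P.Monic) (hi : Irreducible P) : Distinct P := by
  have h1 : Irreducible (P.map (algebraMap ℤ ℚ)) :=
    (hm.irreducible_iff_irreducible_map_fraction_map (K := ℚ)).mp hi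
  have h2 : (P.map (algebraMap ℤ ℚ)).Separable := h1.separable
  have h3 : ((P.map (algebraMap ℤ ℚ)).map (algebraMap ℚ ℂ)).Separable := h2.map
  have h4 : (P.map (algebraMap ℤ ℚ)).map (algebraMap ℚ ℂ) = P.map (Int.castRingHom ℂ) := by
    rw [map_map]
    congr 1
  unfold Distinct
  rw [← h4]
  exact nodup_roots h3

lemma distinct_of_simple {P : ℤ[X]} (h0 : P ≠ 0)
    (h : ∀ β : ℂ, aeval β P = 0 → aeval β (derivative P) ≠ 0) : Distinct P := by
  unfold Distinct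
  rw [Multiset.nodup_iff_count_le_one]
  intro β
  rw [count_roots]
  by_contra hcon
  push Not at hcon
  have hne : P.map (Int.castRingHom ℂ) ≠ 0 :=
    (Polynomial.map_ne_zero_iff (RingHom.injective_int _)).mpr h0
  obtain ⟨h1, h2⟩ := (one_lt_rootMultiplicity_iff_isRoot hne).mp hcon
  refine h β ?_ ?_
  · rw [IsRoot.def, eval_map] at h1
    exact h1
  · rw [derivative_map, IsRoot.def, eval_map] at h2
    exact h2

/-- `X^m - B` has no double root for even `m` -/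
lemma Pc_one_simple {m : ℕ} (hm : 9 ≤ m) (heven : Even m) (β : ℂ)
    (h1 : aeval β (Pc m 1) = 0) : aeval β (derivative (Pc m 1)) ≠ 0 := by
  intro h2
  have hmon := Pc_monic hm 1
  have hint : IsIntegral ℤ β := ⟨Pc m 1, hmon, by rw [← aeval_def]; exact h1⟩
  obtain ⟨R, hR⟩ := minpoly.isIntegrallyClosed_dvd hint h1
  obtain ⟨T, hT⟩ := minpoly.isIntegrallyClosed_dvd hint h2
  set q := minpoly ℤ β with hq
  have hqm : q.Monic := minpoly.monic hint
  -- reduce modulo 2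
  let φ := Int.castRingHom (ZMod 2)
  have h2z : (2 : (ZMod 2)[X]) = 0 := CharTwo.two_eq_zero
  have e1 : (Pc m 1).map φ = X ^ m - (X ^ 3 + X ^ 2 - 1) ^ 2 * (X ^ 2 - X + 1) := by
    unfold Pc Bz
    simp only [Polynomial.map_sub, Polynomial.map_add, Polynomial.map_mul, Polynomial.map_pow,
      map_X, Polynomial.map_one, φ, map_one]
    ring
  have e2 : (derivative (Pc m 1)).map φ = (X ^ 3 + X ^ 2 - 1) ^ 2 := by
    obtain ⟨t, rfl⟩ := heven
    rw [← derivative_map, e1]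
    simp only [derivative_sub, derivative_mul, derivative_pow, derivative_X, derivative_one,
      derivative_add]
    have h3 : (((t + t : ℕ) : ZMod 2)) = 0 := by
      have : ((t + t : ℕ) : ZMod 2) = (2 : ZMod 2) * t := by push_cast; ring
      rw [this, show (2 : ZMod 2) = 0 from by decide, zero_mul]
    rw [h3]
    simp only [C_0, zero_mul, Nat.cast_ofNat]
    have h4 : (C (2 : ZMod 2) : (ZMod 2)[X]) = 0 := by
      rw [show (2 : ZMod 2) = 0 from by decide, C_0]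
    rw [h4]
    linear_combination (-(X ^ 3 + X ^ 2 - 1) ^ 2 * X) * h2z + (X ^ 3 + X ^ 2 - 1) ^ 2 * h2z +
      (-1 + X + 2 * X ^ 2 - 3 * X ^ 4 - X ^ 5 + X ^ 6 + X ^ 7) * h2z
  have hcop : IsCoprime ((Pc m 1).map φ) ((derivative (Pc m 1)).map φ) := by
    rw [e1, e2]
    have h3 : IsCoprime (X : (ZMod 2)[X]) (X ^ 3 + X ^ 2 - 1) :=
      ⟨X ^ 2 + X, -1, by ring⟩
    have h4 : IsCoprime ((X : (ZMod 2)[X]) ^ m) ((X ^ 3 + X ^ 2 - 1) ^ 2) := h3.pow
    have h5 := h4.add_mul_left_left (-(X ^ 2 - X + 1))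
    convert! h5 using 1
    ring
  have hq1 : q.map φ ∣ (Pc m 1).map φ := ⟨R.map φ, by rw [hR, Polynomial.map_mul]⟩
  have hq2 : q.map φ ∣ (derivative (Pc m 1)).map φ := ⟨T.map φ, by rw [hT, Polynomial.map_mul]⟩
  have hunit : IsUnit (q.map φ) := hcop.isUnit_of_dvd' hq1 hq2
  have hqm' : (q.map φ).Monic := hqm.map φ
  have h6 : q.map φ = 1 := hqm'.eq_one_of_isUnit hunit
  have h7 : (q.map φ).natDegree = q.natDegree := hqm.natDegree_map φ
  rw [h6, natDegree_one] at h7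
  have h8 := minpoly.natDegree_pos hint
  rw [← hq] at h8
  omega

lemma sep_nonneg (P : ℤ[X]) : 0 ≤ sep P := by
  unfold sep
  refine Real.sInf_nonneg ?_
  rintro r ⟨a, b, -, -, -, rfl⟩
  exact norm_nonneg _

lemma sep_le {P : ℤ[X]} {a b : ℂ} (hab : a ≠ b) (ha : aeval a P = 0) (hb : aeval b P = 0) :
    sep P ≤ ‖a - b‖ := by
  unfold sep
  refine csInf_le ⟨0, ?_⟩ ⟨a, b, hab, ha, hb, rfl⟩
  rintro r ⟨a, b, -, -, -, rfl⟩
  exact norm_nonneg _

lemma sep_Pc {m : ℕ} (hm : 35 ≤ m) {c : ℕ} (hc : 1 ≤ c) :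
    ∃ x y : ℂ, x ≠ y ∧ ‖x - y‖ ≤ 2 * (7 / 8) ^ m ∧ aeval x (Pc m c) = 0 ∧ aeval y (Pc m c) = 0 := by
  have hc' : (1 : ℝ) ≤ c := by exact_mod_cast hc
  obtain ⟨x, y, hxy, hd, hx, hy⟩ := real_roots hc' hm
  refine ⟨x, y, ?_, ?_, ?_, ?_⟩
  · intro h
    exact hxy.ne (by exact_mod_cast h)
  · rw [← Complex.ofReal_sub, Complex.norm_real, Real.norm_eq_abs, abs_sub_comm,
      abs_of_pos (by linarith)]
    exact hd
  · rw [Pc_aeval]
    have : ((x ^ m - c * Bf x : ℝ) : ℂ) = 0 := by rw [hx]; simp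
    rw [← this]
    unfold Bf
    push_cast
    ring
  · rw [Pc_aeval]
    have : ((y ^ m - c * Bf y : ℝ) : ℂ) = 0 := by rw [hy]; simp
    rw [← this]
    unfold Bf
    push_cast
    ring

end Pool.Agent.RootSep
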