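import Mathlib
import Pool.Agent.RootSep.Poly

namespace Pool.Agent.RootSep

open Polynomial

/-- `X (X^m - B)` -/
noncomputable def Qo (m : ℕ) : ℤ[X] := X * Pc m 1

lemma Qo_monic {m : ℕ} (hm : 9 ≤ m) : (Qo m).Monic := monic_X.mul (Pc_monic hm 1)

lemma Qo_natDegree {m : ℕ} (hm : 9 ≤ m) : (Qo m).natDegree = m + 1 := by
  unfold Qo
  rw [natDegree_X_mul (Pc_monic hm 1).ne_zero, Pc_natDegree hm]

lemma Qo_height {m : ℕ} (hm : 9 ≤ m) (j : ℕ) : |(Qo m).coeff j| ≤ 1 := by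
  unfold Qo
  cases j with
  | zero => simp
  | succ j =>
    rw [coeff_X_mul]
    have := Pc_height hm (le_refl 1) j
    simpa using this

lemma Qo_simple {m : ℕ} (hm : 9 ≤ m) (heven : Even m) (β : ℂ)
    (h1 : aeval β (Qo m) = 0) : aeval β (derivative (Qo m)) ≠ 0 := by
  intro h2
  have e : aeval β (derivative (Qo m)) =
      aeval β (Pc m 1) + β * aeval β (derivative (Pc m 1)) := by
    simp [Qo, derivative_mul]
  rw [e] at h2
  have h1' : β * aeval β (Pc m 1) = 0 := by simpa [Qo] using h1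
  have hz : aeval (0 : ℂ) (Pc m 1) ≠ 0 := by
    rw [Pc_aeval, zero_pow (by omega)]
    unfold Bf
    norm_num
  rcases mul_eq_zero.mp h1' with h | h
  · subst h
    rw [zero_mul, add_zero] at h2
    exact hz h2
  · rw [h, zero_add] at h2
    rcases mul_eq_zero.mp h2 with h3 | h3
    · subst h3
      exact hz h
    · exact Pc_one_simple hm heven β h h3

/-- positivity of the minimum -/
lemma pos_of {n H : ℕ} (hn : 2 ≤ n) {S : Set ℝ} (hne : S.Nonempty)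
    (hS : ∀ s ∈ S, ∃ P : ℤ[X], P.natDegree = n ∧ HeightLE H P ∧ Distinct P ∧ s = sep P) :
    0 < sInf S := by
  classical
  have hfin := bUnion_roots_finite (Int.castRingHom ℂ) n
    (Set.finite_Icc (-(H : ℤ)) (H : ℤ))
  set Z : Set ℂ := ⋃ (f : ℤ[X]) (_ : f.natDegree ≤ n ∧ ∀ i, f.coeff i ∈ Set.Icc (-(H : ℤ)) H),
    ((f.map (Int.castRingHom ℂ)).roots.toFinset : Set ℂ) with hZ
  -- a positive lower bound for all distances
  obtain ⟨δ, hδ, hδ'⟩ : ∃ δ : ℝ, 0 < δ ∧ ∀ a ∈ Z, ∀ b ∈ Z, a ≠ b → δ ≤ ‖a - b‖ := by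
    have hD : ((Z ×ˢ Z) ∩ {p : ℂ × ℂ | p.1 ≠ p.2}).Finite :=
      (hfin.prod hfin).subset Set.inter_subset_left
    rcases Set.eq_empty_or_nonempty ((Z ×ˢ Z) ∩ {p : ℂ × ℂ | p.1 ≠ p.2}) with h | h
    · refine ⟨1, one_pos, fun a ha b hb hab => ?_⟩
      have : (a, b) ∈ (Z ×ˢ Z) ∩ {p : ℂ × ℂ | p.1 ≠ p.2} := ⟨⟨ha, hb⟩, hab⟩
      rw [h] at this
      exact absurd this (Set.notMem_empty _)
    · obtain ⟨p, hp, hmin⟩ := Set.exists_min_image _ (fun p : ℂ × ℂ => ‖p.1 - p.2‖) hD h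
      refine ⟨‖p.1 - p.2‖, norm_pos_iff.mpr (sub_ne_zero.mpr hp.2), fun a ha b hb hab => ?_⟩
      exact hmin (a, b) ⟨⟨ha, hb⟩, hab⟩
  refine lt_of_lt_of_le hδ (le_csInf hne ?_)
  intro s hs
  obtain ⟨P, hdeg, hH, hD, rfl⟩ := hS s hs
  have hP0 : P ≠ 0 := by
    rintro rfl
    rw [natDegree_zero] at hdeg
    omega
  have hPm0 : P.map (Int.castRingHom ℂ) ≠ 0 :=
    (Polynomial.map_ne_zero_iff (RingHom.injective_int _)).mpr hP0
  have hmem : ∀ a : ℂ, aeval a P = 0 → a ∈ Z := by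
    intro a ha
    rw [hZ]
    refine Set.mem_biUnion (x := P) ?_ ?_
    · exact ⟨hdeg.le, fun i => abs_le.mp (hH i)⟩
    · rw [Finset.mem_coe, Multiset.mem_toFinset, mem_roots hPm0, IsRoot.def, eval_map]
      exact ha
  refine le_csInf ?_ ?_
  · -- two distinct roots
    have hcard : (P.map (Int.castRingHom ℂ)).roots.card = n := by
      rw [← hdeg, ← natDegree_map_eq_of_injective (RingHom.injective_int (Int.castRingHom ℂ)) P]
      exact (splits_iff_card_roots.mp (IsAlgClosed.splits _))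
    have h2 : 1 < (P.map (Int.castRingHom ℂ)).roots.toFinset.card := by
      rw [Multiset.toFinset_card_of_nodup hD, hcard]
      omega
    obtain ⟨a, ha, b, hb, hab⟩ := Finset.one_lt_card.mp h2
    rw [Multiset.mem_toFinset, mem_roots hPm0, IsRoot.def, eval_map] at ha hb
    exact ⟨‖a - b‖, a, b, hab, ha, hb, rfl⟩
  · rintro r ⟨a, b, hab, ha, hb, rfl⟩
    exact hδ' a (hmem a ha) b (hmem b hb) hab

lemma le_of {S : Set ℝ} (h0 : ∀ s ∈ S, ∃ P : ℤ[X], s = sep P) {s : ℝ} (hs : s ∈ S) :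
    sInf S ≤ s := by
  refine csInf_le ⟨0, ?_⟩ hs
  intro t ht
  obtain ⟨P, rfl⟩ := h0 t ht
  exact sep_nonneg P

lemma exists_irr {n : ℕ} (hn : 35 ≤ n) {H : ℕ} (hH : 2 ≤ H) :
    ∃ P : ℤ[X], P.natDegree = n ∧ HeightLE H P ∧ Distinct P ∧ P.Monic ∧ Irreducible P ∧
      sep P ≤ 2 * (7 / 8) ^ n := by
  have h9 : 9 ≤ n := by omega
  obtain ⟨x, y, hxy, hd, hx, hy⟩ := sep_Pc hn (c := 2) (by norm_num)
  refine ⟨Pc n 2, Pc_natDegree h9 2, fun j => ?_,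
    distinct_of_irreducible (Pc_monic h9 2) (Pc_irreducible h9), Pc_monic h9 2,
    Pc_irreducible h9, (sep_le hxy hx hy).trans hd⟩
  have h1 := Pc_height h9 (c := 2) (by norm_num) j
  have h2 : ((2 : ℕ) : ℤ) ≤ H := by exact_mod_cast hH
  exact le_trans (by simpa using h1) (by simpa using h2)

lemma exists_monic {n : ℕ} (hn : 36 ≤ n) {H : ℕ} (hH : 1 ≤ H) :
    ∃ P : ℤ[X], P.natDegree = n ∧ HeightLE H P ∧ Distinct P ∧ P.Monic ∧
      sep P ≤ 2 * (7 / 8) ^ (n - 1) := by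
  have hH' : (1 : ℤ) ≤ H := by exact_mod_cast hH
  rcases Nat.even_or_odd n with he | ho
  · have h9 : 9 ≤ n := by omega
    obtain ⟨x, y, hxy, hd, hx, hy⟩ := sep_Pc (show 35 ≤ n by omega) (c := 1) le_rfl
    rw [Nat.cast_one] at hx hy
    refine ⟨Pc n 1, Pc_natDegree h9 1, fun j => ?_,
      distinct_of_simple (Pc_monic h9 1).ne_zero (Pc_one_simple h9 he), Pc_monic h9 1, ?_⟩
    · have h1 := Pc_height h9 (c := 1) le_rfl j
      exact le_trans (by simpa using h1) hH'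
    · refine (sep_le hxy hx hy).trans (hd.trans ?_)
      refine mul_le_mul_of_nonneg_left ?_ (by norm_num)
      exact pow_le_pow_of_le_one (by norm_num) (by norm_num) (Nat.sub_le n 1)
  · have h9 : 9 ≤ n - 1 := by omega
    have he : Even (n - 1) := by
      obtain ⟨k, hk⟩ := ho
      exact ⟨k, by omega⟩
    obtain ⟨x, y, hxy, hd, hx, hy⟩ := sep_Pc (show 35 ≤ n - 1 by omega) (c := 1) le_rfl
    rw [Nat.cast_one] at hx hy
    refine ⟨Qo (n - 1), ?_, fun j => (Qo_height h9 j).trans hH',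
      distinct_of_simple (Qo_monic h9).ne_zero (Qo_simple h9 he), Qo_monic h9, ?_⟩
    · rw [Qo_natDegree h9]
      omega
    · refine (sep_le hxy ?_ ?_).trans hd
      · simp [Qo, hx]
      · simp [Qo, hy]

theorem main :
    (∀ n H : ℕ, 36 ≤ n → 1 ≤ H →
      (0 < L n H ∧ L n H ≤ 2 * (7 / 8) ^ (n - 1)) ∧
      (0 < L0 n H ∧ L0 n H ≤ 2 * (7 / 8) ^ (n - 1))) ∧
    (∀ n H : ℕ, 35 ≤ n → 2 ≤ H →
      (0 < Lirr n H ∧ Lirr n H ≤ 2 * (7 / 8) ^ n) ∧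
      (0 < L0irr n H ∧ L0irr n H ≤ 2 * (7 / 8) ^ n)) := by
  refine ⟨fun n H hn hH => ?_, fun n H hn hH => ?_⟩
  · obtain ⟨P, h1, h2, h3, h4, h5⟩ := exists_monic hn hH
    have m1 : sep P ∈ {s | ∃ P : ℤ[X], P.natDegree = n ∧ HeightLE H P ∧ Distinct P ∧ s = sep P} :=
      ⟨P, h1, h2, h3, rfl⟩
    have m2 : sep P ∈ {s | ∃ P : ℤ[X], P.natDegree = n ∧ HeightLE H P ∧ Distinct P ∧ P.Monic ∧
        s = sep P} := ⟨P, h1, h2, h3, h4, rfl⟩
    refine ⟨⟨pos_of (n := n) (H := H) (by omega) ⟨_, m1⟩ fun s hs => hs, ?_⟩,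
      ⟨pos_of (n := n) (H := H) (by omega) ⟨_, m2⟩ ?_, ?_⟩⟩
    · refine le_trans (le_of ?_ m1) h5
      rintro s ⟨P, -, -, -, h⟩
      exact ⟨P, h⟩
    · rintro s ⟨P, h1, h2, h3, -, h⟩
      exact ⟨P, h1, h2, h3, h⟩
    · refine le_trans (le_of ?_ m2) h5
      rintro s ⟨P, -, -, -, -, h⟩
      exact ⟨P, h⟩
  · obtain ⟨P, h1, h2, h3, h4, h5, h6⟩ := exists_irr hn hH
    have m1 : sep P ∈ {s | ∃ P : ℤ[X], P.natDegree = n ∧ HeightLE H P ∧ Distinct P ∧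
        Irreducible P ∧ s = sep P} := ⟨P, h1, h2, h3, h5, rfl⟩
    have m2 : sep P ∈ {s | ∃ P : ℤ[X], P.natDegree = n ∧ HeightLE H P ∧ Distinct P ∧ P.Monic ∧
        Irreducible P ∧ s = sep P} := ⟨P, h1, h2, h3, h4, h5, rfl⟩
    refine ⟨⟨pos_of (n := n) (H := H) (by omega) ⟨_, m1⟩ ?_, ?_⟩, ⟨pos_of (n := n) (H := H) (by omega) ⟨_, m2⟩ ?_, ?_⟩⟩
    · rintro s ⟨P, h1, h2, h3, -, h⟩
      exact ⟨P, h1, h2, h3, h⟩
    · refine le_trans (le_of ?_ m1) h6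
      rintro s ⟨P, -, -, -, -, h⟩
      exact ⟨P, h⟩
    · rintro s ⟨P, h1, h2, h3, -, -, h⟩
      exact ⟨P, h1, h2, h3, h⟩
    · refine le_trans (le_of ?_ m2) h6
      rintro s ⟨P, -, -, -, -, -, h⟩
      exact ⟨P, h⟩

end Pool.Agent.RootSep
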